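import Pool.Agent.J6H26.MZ.Main

/-!
# Spaces with the nonstrict Opial property and asymptotic angle less than 2
-/

set_option autoImplicit false

namespace Pool.Agent.J6H26.MZ

open Filter Topology

/-- For weakly null bounded nets `s` and all `y`: `lim ‖s‖ ≤ κ lim ‖s + y‖` and `lim ‖s + y‖ ≤ α max (lim ‖s‖) ‖y‖`. -/
def Angle (X : Type*) [NormedAddCommGroup X] [NormedSpace ℝ X] (κ α : ℝ) : Prop :=
  ∀ (y : X) (R δ : ℝ), 0 < δ → ∃ (F : Finset (StrongDual ℝ X)) (η : ℝ), 0 < η ∧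
    ∀ s : X, ‖s‖ ≤ R → (∀ f ∈ F, |f s| ≤ η) →
      ‖s‖ ≤ κ * ‖s + y‖ + δ ∧ ‖s + y‖ ≤ α * max ‖s‖ ‖y‖ + δ

/-- property `(m_∞)`: for weakly null bounded nets `s`: `lim ‖s + y‖ ≤ max (lim ‖s‖) ‖y‖` -/
def Flat (X : Type*) [NormedAddCommGroup X] [NormedSpace ℝ X] : Prop :=
  ∀ (y : X) (R δ : ℝ), 0 < δ → ∃ (F : Finset (StrongDual ℝ X)) (η : ℝ), 0 < η ∧
    ∀ s : X, ‖s‖ ≤ R → (∀ f ∈ F, |f s| ≤ η) → ‖s + y‖ ≤ max ‖s‖ ‖y‖ + δ

/-- every vector is approximated by operators `P` of finite rank such that the vectors `P x` and `z - P z` are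
related, up to the constant `κ`, as disjoint vectors in a Banach lattice with Riesz angle `α` -/
def Splits (X : Type*) [NormedAddCommGroup X] [NormedSpace ℝ X] (κ α : ℝ) : Prop :=
  ∀ (y : X) (δ : ℝ), 0 < δ → ∃ P : X →L[ℝ] X, FiniteDimensional ℝ P.range ∧ ‖y - P y‖ ≤ δ ∧
    ∀ x z : X, ‖z - P z‖ ≤ κ * ‖P x + (z - P z)‖ ∧
      ‖P x + (z - P z)‖ ≤ α * max ‖P x‖ ‖z - P z‖

variable {X : Type*} [NormedAddCommGroup X] [NormedSpace ℝ X]

theorem angle_of_flat (hX : Flat X) : Angle X 1 1 := by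
  classical
  intro y R δ hδ
  obtain ⟨F1, η1, hη1, h1⟩ := hX y R δ hδ
  obtain ⟨F2, η2, hη2, h2⟩ := hX (-y) R δ hδ
  obtain ⟨g, hg1, hg2⟩ := exists_dual_vector'' ℝ y
  refine ⟨F1 ∪ F2 ∪ {g}, min η1 (min η2 δ), by positivity, fun s hs hF => ?_⟩
  have a1 := h1 s hs fun f hf => (hF f (by simp [hf])).trans (min_le_left _ _)
  have a2 := h2 s hs fun f hf => (hF f (by simp [hf])).trans ((min_le_right _ _).trans (min_le_left _ _))
  have a3 : |g s| ≤ δ := (hF g (by simp)).trans ((min_le_right _ _).trans (min_le_right _ _))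
  have a4 : ‖y‖ ≤ ‖s + y‖ + δ := by
    have h5 : g (s + y) ≤ ‖s + y‖ := by
      refine (le_abs_self _).trans ?_
      rw [← Real.norm_eq_abs]
      exact (g.le_opNorm _).trans (mul_le_of_le_one_left (norm_nonneg _) hg1)
    rw [map_add] at h5
    have h6 : g y = ‖y‖ := by simpa using hg2
    have h7 := neg_abs_le (g s)
    linarith
  refine ⟨?_, by rw [one_mul]; exact a1⟩
  rw [one_mul]
  rw [norm_neg] at a2
  have h3 : 2 * ‖s‖ ≤ ‖s + y‖ + ‖s + -y‖ := by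
    have h4 : (2 : ℝ) • s = (s + y) + (s + -y) := by
      rw [two_smul]
      abel
    have h5 : ‖(2 : ℝ) • s‖ = 2 * ‖s‖ := by
      rw [norm_smul]
      norm_num
    rw [← h5, h4]
    exact norm_add_le _ _
  rcases le_total ‖y‖ ‖s‖ with h4 | h4
  · rw [max_eq_left h4] at a2
    linarith
  · linarith

/-- a finite rank operator is small on a weak neighbourhood of 0 -/
theorem small_of_finrank (P : X →L[ℝ] X) (hP : FiniteDimensional ℝ P.range) (δ : ℝ) (hδ : 0 < δ) :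
    ∃ (F : Finset (StrongDual ℝ X)) (η : ℝ), 0 < η ∧ ∀ s : X, (∀ f ∈ F, |f s| ≤ η) → ‖P s‖ ≤ δ := by
  classical
  let b := Module.finBasis ℝ P.range
  let P' : X →L[ℝ] P.range := P.codRestrict P.range fun x => ⟨x, rfl⟩
  let f : Fin (Module.finrank ℝ P.range) → StrongDual ℝ X := fun j =>
    (LinearMap.toContinuousLinearMap (b.coord j)).comp P'
  have h1 : ∀ s : X, P s = ∑ j, f j s • (b j : X) := by
    intro s
    have h2 := congrArg (Subtype.val) (b.sum_repr (P' s))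
    rw [← show ((P' s : P.range) : X) = P s from rfl, ← h2]
    simp only [AddSubmonoidClass.coe_finsetSum, Submodule.coe_smul]
    rfl
  obtain ⟨A, hA⟩ : ∃ A : ℝ, A = ∑ j, ‖(b j : X)‖ := ⟨_, rfl⟩
  have hA0 : 0 ≤ A := by rw [hA]; positivity
  refine ⟨Finset.univ.image f, δ / (A + 1), by positivity, fun s hs => ?_⟩
  rw [h1]
  refine (norm_sum_le _ _).trans ?_
  have h3 : ∀ j ∈ (Finset.univ : Finset (Fin (Module.finrank ℝ P.range))),
      ‖f j s • (b j : X)‖ ≤ δ / (A + 1) * ‖(b j : X)‖ := by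
    intro j _
    rw [norm_smul]
    exact mul_le_mul_of_nonneg_right (hs _ (Finset.mem_image_of_mem _ (Finset.mem_univ j))) (norm_nonneg _)
  refine (Finset.sum_le_sum h3).trans ?_
  rw [← Finset.mul_sum, ← hA]
  calc δ / (A + 1) * A ≤ δ / (A + 1) * (A + 1) := mul_le_mul_of_nonneg_left (by linarith) (by positivity)
    _ = δ := by field_simp

theorem angle_of_splits (κ α : ℝ) (hκ : 0 < κ) (hα : 0 ≤ α) (hX : Splits X κ α) : Angle X κ α := by
  intro y R δ hδ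
  obtain ⟨ζ, hζ0, hζ1, hζ2, hζ3⟩ : ∃ ζ : ℝ, 0 < ζ ∧ ζ ≤ δ / 6 ∧ α * ζ ≤ δ / 6 ∧ κ * ζ ≤ δ / 6 := by
    have h0 : (κ + α + 1) * (δ / (6 * (κ + α + 1))) = δ / 6 := by field_simp
    have h1 : 0 < δ / (6 * (κ + α + 1)) := by positivity
    refine ⟨δ / (6 * (κ + α + 1)), h1, ?_, ?_, ?_⟩ <;> nlinarith
  obtain ⟨P, hP, hy, h⟩ := hX y ζ hζ0
  obtain ⟨F, η, hη, hF⟩ := small_of_finrank P hP ζ hζ0
  refine ⟨F, η, hη, fun s _ hs => ?_⟩
  have h1 := hF s hs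
  obtain ⟨h2, h3⟩ := h y s
  have e1 : ‖P y + (s - P s)‖ ≤ ‖s + y‖ + (ζ + ζ) := by
    have : P y + (s - P s) = (s + y) - ((y - P y) + P s) := by abel
    rw [this]
    refine (norm_sub_le _ _).trans (add_le_add le_rfl ?_)
    exact (norm_add_le _ _).trans (add_le_add hy h1)
  have e2 : ‖s + y‖ ≤ ‖P y + (s - P s)‖ + (ζ + ζ) := by
    have : s + y = (P y + (s - P s)) + ((y - P y) + P s) := by abel
    rw [this]
    refine (norm_add_le _ _).trans (add_le_add le_rfl ?_)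
    exact (norm_add_le _ _).trans (add_le_add hy h1)
  have e3 : ‖s‖ ≤ ‖s - P s‖ + ζ := by
    have : s = (s - P s) + P s := by abel
    calc ‖s‖ = ‖(s - P s) + P s‖ := by rw [← this]
      _ ≤ ‖s - P s‖ + ‖P s‖ := norm_add_le _ _
      _ ≤ _ := add_le_add le_rfl h1
  have e4 : ‖s - P s‖ ≤ ‖s‖ + ζ := (norm_sub_le _ _).trans (add_le_add le_rfl h1)
  have e5 : ‖P y‖ ≤ ‖y‖ + ζ := by
    have : P y = y - (y - P y) := by abel
    rw [this]
    exact (norm_sub_le _ _).trans (add_le_add le_rfl hy)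
  have e9 : κ * ‖P y + (s - P s)‖ ≤ κ * (‖s + y‖ + (ζ + ζ)) := mul_le_mul_of_nonneg_left e1 hκ.le
  refine ⟨by linarith, ?_⟩
  have e6 : max ‖P y‖ ‖s - P s‖ ≤ max ‖s‖ ‖y‖ + ζ :=
    max_le (by linarith [le_max_right ‖s‖ ‖y‖]) (by linarith [le_max_left ‖s‖ ‖y‖])
  have e7 : α * max ‖P y‖ ‖s - P s‖ ≤ α * (max ‖s‖ ‖y‖ + ζ) := mul_le_mul_of_nonneg_left e6 hα
  have e8 : α * (max ‖s‖ ‖y‖ + ζ) = α * max ‖s‖ ‖y‖ + α * ζ := by ring
  linarith

/-- `c_0(Γ)` and its subspaces -/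
theorem flat_c0 (Γ : Type*) [TopologicalSpace Γ] [DiscreteTopology Γ]
    (Y : Submodule ℝ (ZeroAtInftyContinuousMap Γ ℝ)) : Flat Y := by
  classical
  let ev : Γ → StrongDual ℝ (ZeroAtInftyContinuousMap Γ ℝ) := fun i =>
    LinearMap.mkContinuous { toFun := fun f => f i, map_add' := fun _ _ => rfl, map_smul' := fun _ _ => rfl } 1
      (by
        intro f
        rw [one_mul, ← ZeroAtInftyContinuousMap.norm_toBCF_eq_norm]
        exact f.toBCF.norm_coe_le_norm i)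
  intro y R δ hδ
  have hfin : {i : Γ | ¬ |(y : ZeroAtInftyContinuousMap Γ ℝ) i| < δ}.Finite := by
    have h1 := (y : ZeroAtInftyContinuousMap Γ ℝ).zero_at_infty'
    rw [Filter.cocompact_eq_cofinite] at h1
    have h2 := h1.abs
    rw [abs_zero] at h2
    exact h2.eventually_lt_const hδ
  refine ⟨hfin.toFinset.image fun i => (ev i).comp Y.subtypeL, δ, hδ, fun s _ hs => ?_⟩
  change ‖((s + y : Y) : ZeroAtInftyContinuousMap Γ ℝ)‖ ≤ _
  rw [← ZeroAtInftyContinuousMap.norm_toBCF_eq_norm, BoundedContinuousFunction.norm_le (by positivity)]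
  intro i
  have hle : ∀ z : Y, |(z : ZeroAtInftyContinuousMap Γ ℝ) i| ≤ ‖z‖ := by
    intro z
    change _ ≤ ‖(z : ZeroAtInftyContinuousMap Γ ℝ)‖
    rw [← ZeroAtInftyContinuousMap.norm_toBCF_eq_norm]
    exact (z : ZeroAtInftyContinuousMap Γ ℝ).toBCF.norm_coe_le_norm i
  change |(s : ZeroAtInftyContinuousMap Γ ℝ) i + (y : ZeroAtInftyContinuousMap Γ ℝ) i| ≤ _
  refine (abs_add_le _ _).trans ?_
  by_cases hi : |(y : ZeroAtInftyContinuousMap Γ ℝ) i| < δ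
  · exact add_le_add ((hle s).trans (le_max_left _ _)) hi.le
  · have h3 : |(s : ZeroAtInftyContinuousMap Γ ℝ) i| ≤ δ :=
      hs _ (Finset.mem_image_of_mem _ (hfin.mem_toFinset.mpr hi))
    rw [add_comm]
    exact add_le_add ((hle y).trans (le_max_right _ _)) h3

/-- weakly orthogonal: for weakly null bounded nets `s`: `lim ‖|s| ⊓ |y|‖ = 0` -/
def WeakOrth (Y : Type*) [NormedAddCommGroup Y] [NormedSpace ℝ Y] [Lattice Y] : Prop :=
  ∀ (y : Y) (R δ : ℝ), 0 < δ → ∃ (F : Finset (StrongDual ℝ Y)) (η : ℝ), 0 < η ∧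
    ∀ s : Y, ‖s‖ ≤ R → (∀ f ∈ F, |f s| ≤ η) → ‖|s| ⊓ |y|‖ ≤ δ

/-- the Riesz angle is at most `α` -/
def RieszAngle (Y : Type*) [NormedAddCommGroup Y] [Lattice Y] (α : ℝ) : Prop :=
  ∀ x y : Y, 0 ≤ x → 0 ≤ y → ‖x ⊔ y‖ ≤ α * max ‖x‖ ‖y‖

theorem angle_of_lattice (Y : Type*) [NormedAddCommGroup Y] [NormedSpace ℝ Y] [Lattice Y] [HasSolidNorm Y]
    [IsOrderedAddMonoid Y] (α : ℝ) (h1 : WeakOrth Y) (h2 : RieszAngle Y α) : Angle Y 1 α := by
  intro y R δ hδ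
  obtain ⟨F, η, hη, h⟩ := h1 y R δ hδ
  refine ⟨F, η, hη, fun s hs hF => ?_⟩
  have h3 := h s hs hF
  have e1 : |s| ⊓ |y| + |s| ⊔ |y| = |s| + |y| := inf_add_sup _ _
  have e0 : (0 : Y) ≤ |s| ⊓ |y| := le_inf (abs_nonneg s) (abs_nonneg y)
  constructor
  · have e2 : |s| ≤ |s + y| + |s| ⊓ |y| := by
      have e3 : |s| ⊔ |y| - |s| ⊓ |y| = |(|y| - |s|)| := sup_sub_inf_eq_abs_sub _ _
      have e4 : |(|s| - |-y|)| ≤ |s - -y| := abs_abs_sub_abs_le s (-y)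
      rw [abs_neg, sub_neg_eq_add, abs_sub_comm] at e4
      have e5 : |s| ≤ |s| ⊔ |y| := le_sup_left
      have e6 : |s| ⊔ |y| = |(|y| - |s|)| + |s| ⊓ |y| := by rw [← e3, sub_add_cancel]
      rw [e6] at e5
      exact e5.trans (add_le_add e4 le_rfl)
    have e7 : ‖s‖ ≤ ‖|s + y| + |s| ⊓ |y|‖ := by
      refine HasSolidNorm.solid ?_
      rw [abs_of_nonneg (add_nonneg (abs_nonneg (s + y)) e0)]
      exact e2
    refine e7.trans ((norm_add_le _ _).trans ?_)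
    rw [norm_abs_eq_norm, one_mul]
    exact add_le_add le_rfl h3
  · have e2 : ‖s + y‖ ≤ ‖|s| ⊔ |y| + |s| ⊓ |y|‖ := by
      refine HasSolidNorm.solid ?_
      rw [add_comm (|s| ⊔ |y|), e1, abs_of_nonneg (add_nonneg (abs_nonneg s) (abs_nonneg y))]
      exact abs_add_le s y
    refine e2.trans ((norm_add_le _ _).trans (add_le_add ?_ h3))
    have := h2 |s| |y| (abs_nonneg s) (abs_nonneg y)
    rwa [norm_abs_eq_norm, norm_abs_eq_norm] at this

/-- the condition for a set in a space which is isomorphic to a subspace -/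
theorem angleOn_of_angle {Y : Type*} [NormedAddCommGroup Y] [NormedSpace ℝ Y] (e : X →L[ℝ] Y) (b κ α : ℝ)
    (hb : 0 < b) (he2 : ∀ x, ‖e x‖ ≤ b * ‖x‖) (hY : Angle Y κ α) (C : Set X) (M : ℝ) (hM : ∀ x ∈ C, ‖x‖ ≤ M) :
    AngleOn C (fun x y => ‖e (x - y)‖) κ α := by
  classical
  intro x hx y hy δ hδ
  obtain ⟨F, η, hη, h⟩ := hY (e (x - y)) (b * (M + M)) δ hδ
  refine ⟨F.image fun f => f.comp e, η, hη, fun z hz hF => ?_⟩
  have h1 := h (e (z - x)) ((he2 _).trans (mul_le_mul_of_nonneg_left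
    ((norm_sub_le _ _).trans (add_le_add (hM z hz) (hM x hx))) hb.le)) (fun f hf =>
      hF _ (Finset.mem_image_of_mem _ hf))
  have h2 : e (z - x) + e (x - y) = e (z - y) := by
    rw [← map_add]
    congr 1
    abel
  rw [h2] at h1
  exact h1

end Pool.Agent.J6H26.MZ
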