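import Pool.Agent.J6H26.MZ.Step

/-!
# Multivalued nonexpansive maps in spaces with the nonstrict Opial property: the theorem
-/

set_option autoImplicit false

namespace Pool.Agent.J6H26.MZ

open Filter Topology

variable {X : Type*} [NormedAddCommGroup X] [NormedSpace ℝ X]

variable {C : Set X} {T : X → Set X} {D b κ α : ℝ} {d : X → X → ℝ}

theorem improve (S : Sit d C T D b κ α) (p : X) (hp : p ∈ C) (r : ℝ) (hr : 0 ≤ r)
    (U₀ : Ultrafilter (X × X)) (h : AFP C T p p r 0 U₀) :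
    ∃ p' ∈ C, ∃ U' : Ultrafilter (X × X), ‖p' - p‖ ≤ r / 2 ∧ AFP C T p' p' (κ * b * α / 2 * r) 0 U' := by
  have h1 := fun N : ℕ => trail S p p hp r hr U₀ h (N + 1) (by omega)
  choose π hπC w hwC U hwd hU1 hU2 hU3 hU4 using h1
  obtain ⟨p', hp', hw⟩ := wlim_exists S.cpt (hyperfilter ℕ) w (Eventually.of_forall hwC)
  have hα0 := S.hα0
  have hb := S.hb
  have hκ := S.hκ
  have hw0 : WLim (hyperfilter ℕ : Filter ℕ) (fun N => w N - p') 0 := by
    have := hw.sub_const p'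
    rwa [sub_self] at this
  have hbd : ∀ η : ℝ, 0 < η → ∀ᶠ N in (hyperfilter ℕ : Filter ℕ), d (w N) p' ≤ κ * b * (r / 2) + η := by
    intro η hη
    filter_upwards [angle_ev S.angle hp' hw (Eventually.of_forall hwC) p hp η hη] with N hN
    have e1 : κ * d (w N) p ≤ κ * (b * (r / 2)) :=
      mul_le_mul_of_nonneg_left ((S.upper _ (hwC N) _ hp).trans (mul_le_mul_of_nonneg_left (hwd N) hb.le)) hκ.le
    linarith [hN.1]
  have hev : ∀ P : X × X → Prop, (∀ᶠ N in (hyperfilter ℕ : Filter ℕ), ∀ᶠ z in (U N : Filter (X × X)), P z) →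
      ∀ᶠ z in (((hyperfilter ℕ).bind U : Ultrafilter (X × X)) : Filter (X × X)), P z := by
    intro P hP
    have : ∀ᶠ z in Filter.bind (hyperfilter ℕ : Filter ℕ) (fun N => (U N : Filter (X × X))), P z :=
      eventually_bind.mpr hP
    exact this
  refine ⟨p', hp', (hyperfilter ℕ).bind U, ?_, ?_, ?_, ?_, ?_⟩
  · refine le_of_forall_pos_le_add fun δ hδ => ?_
    obtain ⟨N, hN⟩ := (lsc hw0 (p' - p) δ hδ).exists
    rw [sub_add_sub_cancel] at hN
    linarith [hwd N]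
  · exact hev _ (Eventually.of_forall hU1)
  · intro f
    rw [Metric.tendsto_nhds]
    intro ε hε
    refine hev _ ?_
    filter_upwards [Metric.tendsto_nhds.mp (hw f) (ε / 2) (by positivity)] with N hN
    filter_upwards [Metric.tendsto_nhds.mp (hU2 N f) (ε / 2) (by positivity)] with z hz
    have := dist_triangle (f z.1) (f (w N)) (f p')
    linarith
  · intro η hη
    refine hev _ ?_
    obtain ⟨ζ, hζ0, hζ1⟩ : ∃ ζ : ℝ, 0 < ζ ∧ α * ζ ≤ η / 2 := by
      refine ⟨η / (2 * (α + 1)), by positivity, ?_⟩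
      calc α * (η / (2 * (α + 1))) ≤ (α + 1) * (η / (2 * (α + 1))) :=
            mul_le_mul_of_nonneg_right (by linarith) (by positivity)
        _ = η / 2 := by field_simp
    filter_upwards [hbd ζ hζ0] with N hN
    have h6 : ∀ᶠ z in (U N : Filter (X × X)), z.1 ∈ C := by
      filter_upwards [hU1 N] with z hz
      exact hz.1
    filter_upwards [hU3 N (ζ / (2 * (κ * b))) (by positivity), h6,
      angle_ev S.angle (hwC N) (hU2 N) h6 (π N) (hπC N) (ζ / 2) (by positivity),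
      angle_ev S.angle (hwC N) (hU2 N) h6 p' hp' (η / 2) (by positivity)] with z a1 hz a0 a2
    have e4 : κ * d z.1 (π N) ≤ κ * (b * (r / 2 + ζ / (2 * (κ * b)))) :=
      mul_le_mul_of_nonneg_left ((S.upper _ hz _ (hπC N)).trans (mul_le_mul_of_nonneg_left a1 hb.le)) hκ.le
    have e4' : κ * (b * (r / 2 + ζ / (2 * (κ * b)))) = κ * b * (r / 2) + ζ / 2 := by field_simp
    have e0 := a0.1
    have e2 := a2.2
    have e3 : α * max (d z.1 (w N)) (d (w N) p') ≤ α * (κ * b * (r / 2) + ζ) :=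
      mul_le_mul_of_nonneg_left (max_le (by linarith) hN) hα0
    have e6 := S.lower _ hz _ hp'
    have e7 : α * (κ * b * (r / 2) + ζ) = κ * b * α / 2 * r + α * ζ := by ring
    linarith
  · intro η hη
    refine hev _ ?_
    have h6 : Tendsto (fun N : ℕ => (D + r) / ((N + 1 : ℕ) : ℝ)) atTop (𝓝 0) :=
      (tendsto_const_div_atTop_nhds_zero_nat (D + r)).comp (tendsto_add_atTop_nat 1)
    have h7 : ∀ᶠ N : ℕ in atTop, (D + r) / ((N + 1 : ℕ) : ℝ) ≤ η / 2 :=
      h6.eventually_le_const (by positivity)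
    filter_upwards [Nat.hyperfilter_le_atTop h7] with N hN
    filter_upwards [hU4 N (η / 2) (by positivity)] with z hz
    have hN' : (D + r) / ((N + 1 : ℕ) : ℝ) ≤ η / 2 := hN
    linarith

/-- approximate fixed points exist -/
theorem approx (S : Sit d C T D b κ α) (c : X) (hc : c ∈ C) (q : X) (hq : q ∈ T c) (η : ℝ) (hη : 0 < η) :
    ∃ z : X × X, (z.1 ∈ C ∧ z.2 ∈ T z.1) ∧ ‖z.1 - z.2‖ ≤ η := by
  have hD : 0 ≤ D := (norm_nonneg _).trans (S.diam c hc c hc)
  obtain ⟨ε, hε0, hε1, hεD⟩ : ∃ ε : ℝ, 0 < ε ∧ ε < 1 ∧ ε * D ≤ η / 2 := by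
    refine ⟨min (1 / 2) (η / (2 * (D + 1))), by positivity, ?_, ?_⟩
    · exact (min_le_left _ _).trans_lt (by norm_num)
    · calc min (1 / 2) (η / (2 * (D + 1))) * D ≤ η / (2 * (D + 1)) * D :=
            mul_le_mul_of_nonneg_right (min_le_right _ _) hD
        _ ≤ η / (2 * (D + 1)) * (D + 1) := mul_le_mul_of_nonneg_left (by linarith) (by positivity)
        _ = η / 2 := by field_simp
  have h1 : ∀ z : X × X, ∃ w : X × X, (z.1 ∈ C ∧ z.2 ∈ T z.1) →
      (w.1 ∈ C ∧ w.2 ∈ T w.1) ∧ w.1 = (1 - ε) • z.2 + ε • c ∧ ‖w.2 - z.2‖ ≤ ‖w.1 - z.1‖ := by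
    intro z
    by_cases hz : z.1 ∈ C ∧ z.2 ∈ T z.1
    · have hz2 : z.2 ∈ C := (S.val _ hz.1).2 hz.2
      have hu : (1 - ε) • z.2 + ε • c ∈ C :=
        S.conv hz2 hc (by linarith) hε0.le (by ring)
      obtain ⟨q', h1, h2⟩ := S.sel z.1 hz.1 _ hu z.2 hz.2
      exact ⟨((1 - ε) • z.2 + ε • c, q'), fun _ => ⟨⟨hu, h1⟩, rfl, h2⟩⟩
    · exact ⟨z, fun h => absurd h hz⟩
  choose nx hnx using h1
  have hgood : ∀ k : ℕ, ((nx^[k] (c, q)).1 ∈ C ∧ (nx^[k] (c, q)).2 ∈ T (nx^[k] (c, q)).1) := by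
    intro k
    induction k with
    | zero => exact ⟨hc, hq⟩
    | succ k ih =>
      rw [Function.iterate_succ_apply']
      exact (hnx _ ih).1
  have hstep : ∀ k : ℕ, ‖(nx^[k + 1] (c, q)).1 - (nx^[k] (c, q)).1‖ ≤ (1 - ε) ^ k * D := by
    intro k
    induction k with
    | zero =>
      rw [pow_zero, one_mul]
      exact S.diam _ (hgood 1).1 _ (hgood 0).1
    | succ k ih =>
      have g1 := hgood k
      have g2 := hgood (k + 1)
      rw [Function.iterate_succ_apply' nx (k + 1)]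
      have e1 := (hnx _ g2).2.1
      have e2 := (hnx _ g1).2.1
      have e3 := (hnx _ g1).2.2
      rw [← Function.iterate_succ_apply' nx k (c, q)] at e2 e3
      rw [e1]
      have e4 : (1 - ε) • (nx^[k + 1] (c, q)).2 + ε • c - (nx^[k + 1] (c, q)).1 =
          (1 - ε) • ((nx^[k + 1] (c, q)).2 - (nx^[k] (c, q)).2) := by
        rw [e2, smul_sub]
        abel
      rw [e4, norm_smul, Real.norm_eq_abs, abs_of_nonneg (by linarith), pow_succ]
      have e5 : (1 - ε) * ‖(nx^[k + 1] (c, q)).2 - (nx^[k] (c, q)).2‖ ≤ (1 - ε) * ((1 - ε) ^ k * D) :=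
        mul_le_mul_of_nonneg_left (e3.trans ih) (by linarith)
      linarith
  have hlim : Tendsto (fun k : ℕ => (1 - ε) ^ k * D) atTop (𝓝 0) := by
    have := (tendsto_pow_atTop_nhds_zero_of_lt_one (by linarith : (0 : ℝ) ≤ 1 - ε) (by linarith)).mul_const D
    rwa [zero_mul] at this
  obtain ⟨k, hk⟩ := (hlim.eventually_le_const (by positivity : 0 < η / 2)).exists
  refine ⟨nx^[k + 1] (c, q), hgood _, ?_⟩
  have g1 := hgood k
  have e1 := (hnx _ g1).2.1
  have e2 := (hnx _ g1).2.2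
  rw [← Function.iterate_succ_apply' nx k (c, q)] at e1 e2
  have hq' : (nx^[k] (c, q)).2 ∈ C := (S.val _ g1.1).2 g1.2
  have e4 : (nx^[k + 1] (c, q)).1 - (nx^[k + 1] (c, q)).2 =
      ε • (c - (nx^[k] (c, q)).2) - ((nx^[k + 1] (c, q)).2 - (nx^[k] (c, q)).2) := by
    rw [e1]
    simp only [smul_sub, sub_smul, one_smul]
    abel
  rw [e4]
  refine (norm_sub_le _ _).trans ?_
  rw [norm_smul, Real.norm_eq_abs, abs_of_pos hε0]
  have e6 : ε * ‖c - (nx^[k] (c, q)).2‖ ≤ ε * D := mul_le_mul_of_nonneg_left (S.diam _ hc _ hq') hε0.le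
  have e7 := hstep k
  linarith

/-- the start -/
theorem start (S : Sit d C T D b κ α) (c : X) (hc : c ∈ C) (q : X) (hq : q ∈ T c) :
    ∃ p ∈ C, ∃ U : Ultrafilter (X × X), AFP C T p p D 0 U := by
  have h1 := fun N : ℕ => approx S c hc q hq (1 / ((N : ℝ) + 1)) (by positivity)
  choose z hz1 hz2 using h1
  obtain ⟨p, hp, hw⟩ := wlim_exists S.cpt (hyperfilter ℕ) (fun N => (z N).1)
    (Eventually.of_forall fun N => (hz1 N).1)
  refine ⟨p, hp, (hyperfilter ℕ).map z, ?_, ?_, ?_, ?_⟩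
  · rw [Ultrafilter.coe_map, eventually_map]
    exact Eventually.of_forall hz1
  · intro f
    rw [Ultrafilter.coe_map, tendsto_map'_iff]
    exact hw f
  · intro η hη
    rw [Ultrafilter.coe_map, eventually_map]
    exact Eventually.of_forall fun N => (S.diam _ (hz1 N).1 _ hp).trans (by linarith)
  · intro η hη
    rw [Ultrafilter.coe_map, eventually_map]
    have h7 : ∀ᶠ N : ℕ in atTop, 1 / ((N : ℝ) + 1) ≤ η :=
      tendsto_one_div_add_atTop_nhds_zero_nat.eventually_le_const hη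
    filter_upwards [Nat.hyperfilter_le_atTop h7] with N hN
    have hN' : 1 / ((N : ℝ) + 1) ≤ η := hN
    linarith [hz2 N]

theorem fixed [CompleteSpace X] (S : Sit d C T D b κ α) (c : X) (hc : c ∈ C) (q : X) (hq : q ∈ T c) :
    ∃ x ∈ C, x ∈ T x := by
  have hD : 0 ≤ D := (norm_nonneg _).trans (S.diam c hc c hc)
  obtain ⟨p₀, hp₀, U₀, h₀⟩ := start S c hc q hq
  have hb := S.hb
  obtain ⟨τ, hτ⟩ : ∃ τ : ℝ, τ = κ * b * α / 2 := ⟨_, rfl⟩
  have hθ0 : 0 ≤ τ := by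
    rw [hτ]
    have := mul_nonneg (mul_nonneg S.hκ.le hb.le) S.hα0
    linarith
  have hθ1 : τ < 1 := by
    rw [hτ]
    linarith [S.hα1]
  let A : ℕ → Type _ := fun k => {p : X // p ∈ C ∧ ∃ U : Ultrafilter (X × X), AFP C T p p (τ ^ k * D) 0 U}
  have step : ∀ (k : ℕ) (a : A k), ∃ b : A (k + 1), ‖b.1 - a.1‖ ≤ τ ^ k * D / 2 := by
    intro k a
    obtain ⟨V, hV⟩ := a.2.2
    obtain ⟨p', h1, U', h2, h3⟩ := improve S a.1 a.2.1 _ (by positivity) V hV
    refine ⟨⟨p', h1, U', ?_⟩, h2⟩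
    have e : τ ^ (k + 1) * D = τ * (τ ^ k * D) := by ring
    rw [e, hτ]
    rw [hτ] at h3
    exact h3
  choose nx hnx using step
  let P : ∀ k, A k := fun k => Nat.rec (motive := A) ⟨p₀, hp₀, U₀, by simpa using h₀⟩ (fun k a => nx k a) k
  have hP : ∀ k, ‖(P (k + 1)).1 - (P k).1‖ ≤ τ ^ k * D / 2 := fun k => hnx k (P k)
  have hcau : CauchySeq (fun k => (P k).1) := by
    refine cauchySeq_of_le_geometric τ (D / 2) hθ1 fun k => ?_
    rw [dist_comm, dist_eq_norm]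
    refine (hP k).trans (le_of_eq ?_)
    ring
  obtain ⟨p, hlim⟩ := cauchySeq_tendsto_of_complete hcau
  have hpC : p ∈ C := by
    obtain ⟨p', hp', hw⟩ := wlim_exists S.cpt (hyperfilter ℕ) (fun k => (P k).1)
      (Eventually.of_forall fun k => (P k).2.1)
    have h1 : p = p' := by
      refine (SeparatingDual.eq_iff_forall_dual_eq (R := ℝ)).mpr fun f => ?_
      refine tendsto_nhds_unique ?_ (hw f)
      exact ((f.continuous.tendsto p).comp hlim).mono_left Nat.hyperfilter_le_atTop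
    rw [h1]
    exact hp'
  refine ⟨p, hpC, ?_⟩
  have hcl : IsClosed (T p) := (S.val p hpC).1.isClosed
  rw [← hcl.closure_eq, Metric.mem_closure_iff]
  intro δ hδ
  have hr : Tendsto (fun k : ℕ => τ ^ k * D) atTop (𝓝 0) := by
    have := (tendsto_pow_atTop_nhds_zero_of_lt_one hθ0 hθ1).mul_const D
    rwa [zero_mul] at this
  have hd := (tendsto_iff_norm_sub_tendsto_zero.mp hlim).eventually_le_const (by positivity : (0 : ℝ) < δ / 12)
  obtain ⟨k, hk1, hk2⟩ := ((hr.eventually_le_const (by positivity : (0 : ℝ) < δ / 12)).and hd).exists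
  obtain ⟨U, hU1, -, hU3, hU4⟩ := (P k).2.2
  obtain ⟨z, a1, a2, a3⟩ := (hU1.and ((hU3 (δ / 12) (by positivity)).and (hU4 (δ / 12) (by positivity)))).exists
  obtain ⟨q', b1, b2⟩ := S.sel z.1 a1.1 p hpC z.2 a1.2
  refine ⟨q', b1, ?_⟩
  rw [dist_eq_norm]
  have e1 : ‖p - z.1‖ ≤ ‖(P k).1 - p‖ + ‖z.1 - (P k).1‖ := by
    have : p - z.1 = -(((P k).1 - p) + (z.1 - (P k).1)) := by abel
    rw [this, norm_neg]
    exact norm_add_le _ _
  have e2 : ‖p - q'‖ ≤ ‖p - z.1‖ + ‖z.1 - z.2‖ + ‖q' - z.2‖ := by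
    have : p - q' = (p - z.1) + (z.1 - z.2) - (q' - z.2) := by abel
    rw [this]
    exact (norm_sub_le _ _).trans (by linarith [norm_add_le (p - z.1) (z.1 - z.2)])
  linarith

/-- the theorem -/
theorem main (X : Type*) [NormedAddCommGroup X] [NormedSpace ℝ X] [CompleteSpace X]
    (C : Set X) (hne : C.Nonempty) (hconv : Convex ℝ C) (hC : IsCompact ((toWeakSpace ℝ X) '' C))
    (d : X → X → ℝ) (b κ α : ℝ) (hb : 0 < b) (hκ : 0 < κ) (hα0 : 0 ≤ α) (hα1 : κ * b * α < 2)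
    (hd : ∀ x ∈ C, ∀ y ∈ C, ‖x - y‖ ≤ d x y ∧ d x y ≤ b * ‖x - y‖) (hX : AngleOn C d κ α)
    (T : X → Set X) (hT : ∀ x ∈ C, (T x).Nonempty ∧ IsCompact (T x) ∧ T x ⊆ C)
    (hn : ∀ x ∈ C, ∀ y ∈ C, Metric.hausdorffDist (T x) (T y) ≤ dist x y) : ∃ x ∈ C, x ∈ T x := by
  obtain ⟨M, hM⟩ := bdd hC
  obtain ⟨c, hc⟩ := hne
  obtain ⟨q, hq⟩ := (hT c hc).1
  refine fixed (d := d) (b := b) (κ := κ) (α := α) (D := M + M) ⟨hb, hκ, hα0, hα1, fun x hx y hy => (hd x hx y hy).1,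
    fun x hx y hy => (hd x hx y hy).2, hX, hC, hconv, fun x hx => (hT x hx).2, ?_, ?_⟩ c hc q hq
  · intro u hu u' hu' q hq
    obtain ⟨q', h1, h2⟩ := (hT u' hu').2.1.exists_infDist_eq_dist (hT u' hu').1 q
    refine ⟨q', h1, ?_⟩
    have h3 : Metric.infDist q (T u') ≤ Metric.hausdorffDist (T u) (T u') :=
      Metric.infDist_le_hausdorffDist_of_mem hq
        (Metric.hausdorffEDist_ne_top_of_nonempty_of_bounded (hT u hu).1 (hT u' hu').1
          (hT u hu).2.1.isBounded (hT u' hu').2.1.isBounded)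
    rw [← dist_eq_norm, ← dist_eq_norm, dist_comm q' q, dist_comm u' u, ← h2]
    exact h3.trans (hn u hu u' hu')
  · intro x hx y hy
    exact (norm_sub_le _ _).trans (add_le_add (hM x hx) (hM y hy))

end Pool.Agent.J6H26.MZ
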