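import Pool.Agent.J6H26.MZ.Basic

/-!
# Multivalued nonexpansive maps in spaces with the nonstrict Opial property: the step
-/

set_option autoImplicit false

namespace Pool.Agent.J6H26.MZ

open Filter Topology

variable {X : Type*} [NormedAddCommGroup X] [NormedSpace ℝ X]

/-- the situation -/
structure Sit (d : X → X → ℝ) (C : Set X) (T : X → Set X) (D b κ α : ℝ) : Prop where
  hb : 0 < b
  hκ : 0 < κ
  hα0 : 0 ≤ α
  hα1 : κ * b * α < 2
  lower : ∀ x ∈ C, ∀ y ∈ C, ‖x - y‖ ≤ d x y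
  upper : ∀ x ∈ C, ∀ y ∈ C, d x y ≤ b * ‖x - y‖
  angle : AngleOn C d κ α
  cpt : IsCompact ((toWeakSpace ℝ X) '' C)
  conv : Convex ℝ C
  val : ∀ x ∈ C, IsCompact (T x) ∧ T x ⊆ C
  sel : ∀ u ∈ C, ∀ u' ∈ C, ∀ q ∈ T u, ∃ q' ∈ T u', ‖q' - q‖ ≤ ‖u' - u‖
  diam : ∀ x ∈ C, ∀ y ∈ C, ‖x - y‖ ≤ D

/-- approximate fixed points converging weakly to `w`, at distance at most `r` from `c`, error at most `e` -/
def AFP (C : Set X) (T : X → Set X) (c w : X) (r e : ℝ) (U : Ultrafilter (X × X)) : Prop :=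
  (∀ᶠ z in (U : Filter (X × X)), z.1 ∈ C ∧ z.2 ∈ T z.1) ∧
    WLim (U : Filter (X × X)) Prod.fst w ∧
    (∀ η : ℝ, 0 < η → ∀ᶠ z in (U : Filter (X × X)), ‖z.1 - c‖ ≤ r + η) ∧
    (∀ η : ℝ, 0 < η → ∀ᶠ z in (U : Filter (X × X)), ‖z.1 - z.2‖ ≤ e + η)

variable {C : Set X} {T : X → Set X} {D b κ α : ℝ} {d : X → X → ℝ}

/-- the asymptotic radius does not increase under `T` -/
theorem radius (S : Sit d C T D b κ α) {ι : Type*} (U : Ultrafilter ι) (u q : ι → X)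
    (h : ∀ᶠ i in (U : Filter ι), u i ∈ C ∧ q i ∈ T (u i)) (p : X) (hp : p ∈ C) (r : ℝ)
    (hr : ∀ η : ℝ, 0 < η → ∀ᶠ i in (U : Filter ι), ‖u i - p‖ ≤ r + η) :
    ∃ σ ∈ C, ∀ η : ℝ, 0 < η → ∀ᶠ i in (U : Filter ι), ‖q i - σ‖ ≤ r + η := by
  have h2 : ∀ i, ∃ y, (u i ∈ C ∧ q i ∈ T (u i)) → y ∈ T p ∧ ‖y - q i‖ ≤ ‖p - u i‖ := by
    intro i
    by_cases hi : u i ∈ C ∧ q i ∈ T (u i)
    · obtain ⟨y, hy1, hy2⟩ := S.sel _ hi.1 p hp _ hi.2
      exact ⟨y, fun _ => ⟨hy1, hy2⟩⟩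
    · exact ⟨0, fun h => absurd h hi⟩
  choose y hy using h2
  obtain ⟨y₀, hy₀, h3⟩ := (S.val p hp).1.ultrafilter_le_nhds' (U.map y) (by
    rw [Ultrafilter.mem_map]
    filter_upwards [h] with i hi
    exact (hy i hi).1)
  have h3' : Tendsto y (U : Filter ι) (𝓝 y₀) := h3
  refine ⟨y₀, (S.val p hp).2 hy₀, fun η hη => ?_⟩
  have h4 : ∀ᶠ i in (U : Filter ι), ‖y i - y₀‖ ≤ η / 2 := by
    have := (tendsto_iff_norm_sub_tendsto_zero.mp h3').eventually_le_const (by positivity : (0 : ℝ) < η / 2)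
    exact this
  filter_upwards [h, h4, hr (η / 2) (by positivity)] with i a1 a2 a4
  have a5 := (hy i a1).2
  have a6 : ‖q i - y₀‖ ≤ ‖y i - q i‖ + ‖y i - y₀‖ := by
    have e1 : q i - y₀ = (y i - y₀) - (y i - q i) := by abel
    rw [e1, add_comm]
    exact norm_sub_le _ _
  rw [norm_sub_rev p (u i)] at a5
  linarith

theorem exists_eps (N : ℕ) (hN : 1 ≤ N) :
    ∃ ε : ℝ, 0 < ε ∧ ε ≤ 1 ∧ ε * N ≤ 1 ∧ (1 - ε) ^ N = 1 / 2 := by
  have hN0 : (0 : ℝ) < N := by exact_mod_cast hN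
  have hN1 : (1 : ℝ) ≤ N := by exact_mod_cast hN
  obtain ⟨μ, hμ⟩ : ∃ μ : ℝ, μ = (1 / 2 : ℝ) ^ (1 / (N : ℝ)) := ⟨_, rfl⟩
  have hμ0 : 0 ≤ μ := by rw [hμ]; positivity
  have hμN : μ ^ N = 1 / 2 := by
    rw [hμ, ← Real.rpow_natCast, ← Real.rpow_mul (by norm_num), one_div_mul_cancel hN0.ne', Real.rpow_one]
  have hμ1 : μ < 1 := by
    by_contra h
    have := one_le_pow₀ (n := N) (not_lt.mp h)
    rw [hμN] at this
    norm_num at this
  have hbd : (1 - 1 / (N : ℝ)) ^ N ≤ μ ^ N := by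
    have e0 : 0 ≤ 1 - 1 / (N : ℝ) := by
      have : 1 / (N : ℝ) ≤ 1 := by
        rw [div_le_one hN0]
        exact hN1
      linarith
    have e1 : 1 - 1 / (N : ℝ) ≤ Real.exp (-(1 / (N : ℝ))) := by
      have := Real.add_one_le_exp (-(1 / (N : ℝ)))
      linarith
    have e2 := pow_le_pow_left₀ e0 e1 N
    rw [← Real.exp_nat_mul] at e2
    have e3 : (N : ℝ) * -(1 / (N : ℝ)) = -1 := by
      field_simp
    rw [e3, Real.exp_neg] at e2
    have e4 : (2 : ℝ) ≤ Real.exp 1 := by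
      have := Real.add_one_le_exp (1 : ℝ)
      linarith
    have e5 : (Real.exp 1)⁻¹ ≤ (2 : ℝ)⁻¹ := inv_anti₀ (by norm_num) e4
    rw [hμN]
    refine e2.trans (e5.trans ?_)
    norm_num
  have hle : 1 - 1 / (N : ℝ) ≤ μ := by
    by_contra h
    have := pow_lt_pow_left₀ (not_le.mp h) hμ0 (by omega : N ≠ 0)
    linarith
  refine ⟨1 - μ, by linarith, by linarith, ?_, by rw [sub_sub_cancel, hμN]⟩
  have : (1 - μ) * N ≤ 1 / (N : ℝ) * N := mul_le_mul_of_nonneg_right (by linarith) hN0.le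
  rwa [one_div_mul_cancel hN0.ne'] at this

/-- the trail -/
theorem trail (S : Sit d C T D b κ α) (p w : X) (hp : p ∈ C) (r : ℝ) (hr : 0 ≤ r) (U : Ultrafilter (X × X))
    (h : AFP C T p w r 0 U) (N : ℕ) (hN : 1 ≤ N) :
    ∃ π ∈ C, ∃ w' ∈ C, ∃ U' : Ultrafilter (X × X), ‖w' - w‖ ≤ r / 2 ∧
      AFP C T π w' (r / 2) ((D + r) / N) U' := by
  obtain ⟨hU1, hU2, hU3, hU4⟩ := h
  have hN0 : (0 : ℝ) < N := by exact_mod_cast hN
  have hN1 : (1 : ℝ) ≤ N := by exact_mod_cast hN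
  obtain ⟨ε, hε0, hε1, hεN, hpow⟩ := exists_eps N hN
  have h1 : ∀ z : X × X, ∃ w : X × X, (z.1 ∈ C ∧ z.2 ∈ T z.1) →
      (w.1 ∈ C ∧ w.2 ∈ T w.1) ∧ w.1 = (1 - ε) • z.2 + ε • p ∧ ‖w.2 - z.2‖ ≤ ‖w.1 - z.1‖ := by
    intro z
    by_cases hz : z.1 ∈ C ∧ z.2 ∈ T z.1
    · have hz2 : z.2 ∈ C := (S.val _ hz.1).2 hz.2
      have hu : (1 - ε) • z.2 + ε • p ∈ C :=
        S.conv hz2 hp (by linarith) hε0.le (by ring)
      obtain ⟨q', h1, h2⟩ := S.sel z.1 hz.1 _ hu z.2 hz.2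
      exact ⟨((1 - ε) • z.2 + ε • p, q'), fun _ => ⟨⟨hu, h1⟩, rfl, h2⟩⟩
    · exact ⟨z, fun h => absurd h hz⟩
  choose nx hnx using h1
  have hgood : ∀ z : X × X, (z.1 ∈ C ∧ z.2 ∈ T z.1) → ∀ k : ℕ,
      ((nx^[k] z).1 ∈ C ∧ (nx^[k] z).2 ∈ T (nx^[k] z).1) := by
    intro z hz k
    induction k with
    | zero => exact hz
    | succ k ih =>
      rw [Function.iterate_succ_apply']
      exact (hnx _ ih).1
  have hstep : ∀ z : X × X, (z.1 ∈ C ∧ z.2 ∈ T z.1) → ∀ k : ℕ,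
      ‖(nx^[k + 1] z).1 - (nx^[k] z).1‖ ≤ (1 - ε) ^ k * ‖(nx z).1 - z.1‖ := by
    intro z hz k
    induction k with
    | zero =>
      rw [pow_zero, one_mul]
      exact le_rfl
    | succ k ih =>
      have g1 := hgood z hz k
      have g2 := hgood z hz (k + 1)
      rw [Function.iterate_succ_apply' nx (k + 1)]
      have e1 := (hnx _ g2).2.1
      have e2 := (hnx _ g1).2.1
      have e3 := (hnx _ g1).2.2
      rw [← Function.iterate_succ_apply' nx k z] at e2 e3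
      rw [e1]
      have e4 : (1 - ε) • (nx^[k + 1] z).2 + ε • p - (nx^[k + 1] z).1 =
          (1 - ε) • ((nx^[k + 1] z).2 - (nx^[k] z).2) := by
        rw [e2, smul_sub]
        abel
      rw [e4, norm_smul, Real.norm_eq_abs, abs_of_nonneg (by linarith), pow_succ]
      have e5 : (1 - ε) * ‖(nx^[k + 1] z).2 - (nx^[k] z).2‖ ≤ (1 - ε) * ((1 - ε) ^ k * ‖(nx z).1 - z.1‖) :=
        mul_le_mul_of_nonneg_left (e3.trans ih) (by linarith)
      linarith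
  have hdist : ∀ z : X × X, (z.1 ∈ C ∧ z.2 ∈ T z.1) → ∀ k : ℕ,
      ε * ‖(nx^[k] z).1 - z.1‖ ≤ (1 - (1 - ε) ^ k) * ‖(nx z).1 - z.1‖ := by
    intro z hz k
    induction k with
    | zero => simp
    | succ k ih =>
      have e1 := hstep z hz k
      have e2 : ‖(nx^[k + 1] z).1 - z.1‖ ≤ ‖(nx^[k + 1] z).1 - (nx^[k] z).1‖ + ‖(nx^[k] z).1 - z.1‖ := by
        have e3 : (nx^[k + 1] z).1 - z.1 = ((nx^[k + 1] z).1 - (nx^[k] z).1) + ((nx^[k] z).1 - z.1) := by abel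
        rw [e3]
        exact norm_add_le _ _
      have e4 : ε * ‖(nx^[k + 1] z).1 - z.1‖ ≤
          ε * ‖(nx^[k + 1] z).1 - (nx^[k] z).1‖ + ε * ‖(nx^[k] z).1 - z.1‖ := by
        rw [← mul_add]
        exact mul_le_mul_of_nonneg_left e2 hε0.le
      have e5 : ε * ‖(nx^[k + 1] z).1 - (nx^[k] z).1‖ ≤ ε * ((1 - ε) ^ k * ‖(nx z).1 - z.1‖) :=
        mul_le_mul_of_nonneg_left e1 hε0.le
      have e6 : (1 - (1 - ε) ^ (k + 1)) * ‖(nx z).1 - z.1‖ =
          (1 - (1 - ε) ^ k) * ‖(nx z).1 - z.1‖ + ε * ((1 - ε) ^ k * ‖(nx z).1 - z.1‖) := by ring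
      linarith
  -- the first step is small
  have hfirst : ∀ η : ℝ, 0 < η → ∀ᶠ z in (U : Filter (X × X)), ‖(nx z).1 - z.1‖ ≤ ε * r + η := by
    intro η hη
    filter_upwards [hU1, hU3 (η / 4) (by positivity), hU4 (η / 4) (by positivity)] with z a1 a2 a3
    rw [(hnx z a1).2.1]
    have e1 : (1 - ε) • z.2 + ε • p - z.1 = -((1 - ε) • (z.1 - z.2)) - ε • (z.1 - p) := by
      simp only [smul_sub, sub_smul, one_smul]
      abel
    rw [e1]
    refine (norm_sub_le _ _).trans ?_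
    rw [norm_neg, norm_smul, norm_smul, Real.norm_eq_abs, Real.norm_eq_abs, abs_of_nonneg (by linarith : (0 : ℝ) ≤ 1 - ε),
      abs_of_pos hε0]
    nlinarith [norm_nonneg (z.1 - z.2), norm_nonneg (z.1 - p)]
  -- the radii
  have hrad : ∀ k : ℕ, ∃ π ∈ C,
      ∀ η : ℝ, 0 < η → ∀ᶠ z in (U : Filter (X × X)), ‖(nx^[k] z).1 - π‖ ≤ (1 - ε) ^ k * r + η := by
    intro k
    induction k with
    | zero =>
      refine ⟨p, hp, fun η hη => ?_⟩
      have := hU3 η hη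
      simpa using this
    | succ k ih =>
      obtain ⟨π, hπ, hrad⟩ := ih
      obtain ⟨σ, hσ, hrad'⟩ := radius S U (fun z => (nx^[k] z).1) (fun z => (nx^[k] z).2) (by
        filter_upwards [hU1] with z hz
        exact hgood z hz k) π hπ _ hrad
      refine ⟨(1 - ε) • σ + ε • p, S.conv hσ hp (by linarith) hε0.le (by ring),
        fun η hη => ?_⟩
      filter_upwards [hU1, hrad' η hη] with z hz hz'
      rw [Function.iterate_succ_apply', (hnx _ (hgood z hz k)).2.1]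
      have e1 : (1 - ε) • (nx^[k] z).2 + ε • p - ((1 - ε) • σ + ε • p) =
          (1 - ε) • ((nx^[k] z).2 - σ) := by
        rw [smul_sub]
        abel
      rw [e1, norm_smul, Real.norm_eq_abs, abs_of_nonneg (by linarith : (0 : ℝ) ≤ 1 - ε), pow_succ]
      have e2 : (1 - ε) * ‖(nx^[k] z).2 - σ‖ ≤ (1 - ε) * ((1 - ε) ^ k * r + η) :=
        mul_le_mul_of_nonneg_left hz' (by linarith)
      nlinarith
  obtain ⟨π, hπ, hrad⟩ := hrad N
  obtain ⟨w', hw', hw⟩ := wlim_exists S.cpt U (fun z => (nx^[N] z).1) (by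
    filter_upwards [hU1] with z hz
    exact (hgood z hz N).1)
  refine ⟨π, hπ, w', hw', U.map (nx^[N]), ?_, ?_, ?_, ?_, ?_⟩
  · -- distance of the weak limits
    refine le_of_forall_pos_le_add fun δ hδ => ?_
    have e1 : WLim (U : Filter (X × X)) (fun z => (nx^[N] z).1 - z.1 - (w' - w)) 0 := by
      have e2 := (hw.sub hU2).sub_const (w' - w)
      rwa [sub_self] at e2
    have e3 := lsc e1 (w' - w) (δ / 2) (by positivity)
    have e4 := hfirst (ε * δ) (by positivity)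
    obtain ⟨z, a1, a2, a3⟩ := (e3.and (e4.and hU1)).exists
    have a4 := hdist z a3 N
    rw [hpow] at a4
    rw [sub_add_cancel] at a1
    have a5 : ε * ‖(nx^[N] z).1 - z.1‖ ≤ ε * (r / 2 + δ / 2) := by
      refine a4.trans ?_
      have : (1 - 1 / 2 : ℝ) * ‖(nx z).1 - z.1‖ ≤ (1 - 1 / 2) * (ε * r + ε * δ) :=
        mul_le_mul_of_nonneg_left a2 (by norm_num)
      refine this.trans (le_of_eq ?_)
      ring
    have a6 := le_of_mul_le_mul_left a5 hε0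
    linarith
  · rw [Ultrafilter.coe_map, eventually_map]
    filter_upwards [hU1] with z hz
    exact hgood z hz N
  · intro f
    rw [Ultrafilter.coe_map, tendsto_map'_iff]
    exact hw f
  · intro η hη
    rw [Ultrafilter.coe_map, eventually_map]
    filter_upwards [hrad η hη] with z hz
    rw [hpow] at hz
    linarith
  · intro η hη
    rw [Ultrafilter.coe_map, eventually_map]
    obtain ⟨j, rfl⟩ : ∃ j, N = j + 1 := ⟨N - 1, by omega⟩
    filter_upwards [hU1, hfirst η hη] with z hz hz'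
    have g1 := hgood z hz j
    have e1 := (hnx _ g1).2.1
    have e2 := (hnx _ g1).2.2
    rw [← Function.iterate_succ_apply' nx j z] at e1 e2
    have e3 := hstep z hz j
    have e3' : (1 - ε) ^ j * ‖(nx z).1 - z.1‖ ≤ ‖(nx z).1 - z.1‖ :=
      mul_le_of_le_one_left (norm_nonneg _) (pow_le_one₀ (by linarith) (by linarith))
    have hq : (nx^[j] z).2 ∈ C := (S.val _ g1.1).2 g1.2
    have e4 : (nx^[j + 1] z).1 - (nx^[j + 1] z).2 =
        ε • (p - (nx^[j] z).2) - ((nx^[j + 1] z).2 - (nx^[j] z).2) := by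
      rw [e1]
      simp only [smul_sub, sub_smul, one_smul]
      abel
    have e5 : ‖(nx^[j + 1] z).1 - (nx^[j + 1] z).2‖ ≤
        ε * ‖p - (nx^[j] z).2‖ + ‖(nx^[j + 1] z).2 - (nx^[j] z).2‖ := by
      rw [e4]
      refine (norm_sub_le _ _).trans ?_
      rw [norm_smul, Real.norm_eq_abs, abs_of_pos hε0]
    have e6 : ε * ‖p - (nx^[j] z).2‖ ≤ ε * D := mul_le_mul_of_nonneg_left (S.diam _ hp _ hq) hε0.le
    have hD : 0 ≤ D := (norm_nonneg _).trans (S.diam p hp p hp)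
    have e7 : ε * D + ε * r ≤ (D + r) / ((j + 1 : ℕ) : ℝ) := by
      rw [le_div_iff₀ hN0]
      have : (ε * D + ε * r) * ((j + 1 : ℕ) : ℝ) = (ε * ((j + 1 : ℕ) : ℝ)) * (D + r) := by ring
      rw [this]
      exact mul_le_of_le_one_left (by linarith) hεN
    linarith

end Pool.Agent.J6H26.MZ
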